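import Pool.Agent.Helper75.SZ.Cls

/-!
# Grids of elements of `H` split off (MP_541d70_co)
-/

open scoped NNReal

namespace Pool.Agent.Helper75.SZ

variable {V : Type} [AddCommGroup V] [Module ℝ V] {H : Set V}

/-- the span of the nine entries -/
def gcW (v : Fin 3 → Fin 3 → V) : Submodule ℝ V :=
  Submodule.span ℝ (Set.range fun p : Fin 3 × Fin 3 => v p.1 p.2)

theorem mem_gcW (v : Fin 3 → Fin 3 → V) (i j : Fin 3) : v i j ∈ gcW v :=
  Submodule.subset_span ⟨(i, j), rfl⟩

theorem Arr.gcW_eq {v : Fin 3 → Fin 3 → V} (h : Arr v) :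
    gcW v = Submodule.span ℝ (Set.range ![v 0 0, v 0 1, v 1 0, v 1 1]) := by
  apply le_antisymm
  · rw [gcW, Submodule.span_le]
    set T := Submodule.span ℝ (Set.range ![v 0 0, v 0 1, v 1 0, v 1 1]) with hT
    have h00 : v 0 0 ∈ T := Submodule.subset_span ⟨0, rfl⟩
    have h01 : v 0 1 ∈ T := Submodule.subset_span ⟨1, rfl⟩
    have h10 : v 1 0 ∈ T := Submodule.subset_span ⟨2, rfl⟩
    have h11 : v 1 1 ∈ T := Submodule.subset_span ⟨3, rfl⟩
    have h02 : v 0 2 ∈ T := by
      have : v 0 2 = -(v 0 0 + v 0 1) := by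
        rw [eq_neg_iff_add_eq_zero, ← h.1 0]
        abel
      rw [this]
      exact neg_mem (add_mem h00 h01)
    have h12 : v 1 2 ∈ T := by
      have : v 1 2 = -(v 1 0 + v 1 1) := by
        rw [eq_neg_iff_add_eq_zero, ← h.1 1]
        abel
      rw [this]
      exact neg_mem (add_mem h10 h11)
    have h2 : ∀ j, v 2 j ∈ T := by
      intro j
      have : v 2 j = -(v 0 j + v 1 j) := by
        rw [eq_neg_iff_add_eq_zero, ← h.2 j]
        abel
      rw [this]
      fin_cases j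
      · exact neg_mem (add_mem h00 h10)
      · exact neg_mem (add_mem h01 h11)
      · exact neg_mem (add_mem h02 h12)
    rintro _ ⟨⟨i, j⟩, rfl⟩
    show v i j ∈ T
    fin_cases i
    · fin_cases j
      · exact h00
      · exact h01
      · exact h02
    · fin_cases j
      · exact h10
      · exact h11
      · exact h12
    · exact h2 j
  · rw [Submodule.span_le]
    rintro _ ⟨i, rfl⟩
    fin_cases i
    · exact mem_gcW v 0 0
    · exact mem_gcW v 0 1
    · exact mem_gcW v 1 0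
    · exact mem_gcW v 1 1

theorem Grid.gcOfArr {v v' : Fin 3 → Fin 3 → V} (hv : Grid H v) (hmem : ∀ i j, v' i j ∈ H)
    (h : Arr v') (hW : gcW v' = gcW v) : Grid H v' := by
  refine ⟨hmem, h, ?_⟩
  have h1 := linearIndependent_iff_card_eq_finrank_span.1 hv.li
  rw [linearIndependent_iff_card_eq_finrank_span, h1]
  unfold Set.finrank
  rw [← h.gcW_eq, ← hv.arr.gcW_eq, hW]

theorem gcW_perm (v : Fin 3 → Fin 3 → V) (σ τ : Equiv.Perm (Fin 3)) :
    gcW (fun i j => v (σ i) (τ j)) = gcW v := by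
  unfold gcW
  congr 1
  ext x
  constructor
  · rintro ⟨p, rfl⟩
    exact ⟨(σ p.1, τ p.2), rfl⟩
  · rintro ⟨p, rfl⟩
    exact ⟨(σ.symm p.1, τ.symm p.2), by simp⟩

theorem Grid.gcPerm {v : Fin 3 → Fin 3 → V} (hv : Grid H v) (σ τ : Equiv.Perm (Fin 3)) :
    Grid H (fun i j => v (σ i) (τ j)) := by
  refine hv.gcOfArr (fun i j => hv.mem _ _) ⟨fun i => ?_, fun j => ?_⟩ (gcW_perm v σ τ)
  · have h1 := Equiv.sum_comp τ (fun j => v (σ i) j)
    rw [Fin.sum_univ_three, Fin.sum_univ_three, hv.arr.1] at h1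
    exact h1
  · have h1 := Equiv.sum_comp σ (fun i => v i (τ j))
    rw [Fin.sum_univ_three, Fin.sum_univ_three, hv.arr.2] at h1
    exact h1

theorem gcW_transpose (v : Fin 3 → Fin 3 → V) : gcW (fun i j => v j i) = gcW v := by
  unfold gcW
  congr 1
  ext x
  constructor
  · rintro ⟨p, rfl⟩
    exact ⟨(p.2, p.1), rfl⟩
  · rintro ⟨p, rfl⟩
    exact ⟨(p.2, p.1), rfl⟩

theorem Grid.gcTranspose {v : Fin 3 → Fin 3 → V} (hv : Grid H v) : Grid H (fun i j => v j i) :=
  hv.gcOfArr (fun i j => hv.mem _ _) ⟨fun i => hv.arr.2 i, fun j => hv.arr.1 j⟩ (gcW_transpose v)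

theorem Arr.gcEq22 {v : Fin 3 → Fin 3 → V} (h : Arr v) :
    v 2 2 = v 0 0 + v 0 1 + v 1 0 + v 1 1 := by
  have h0 := h.1 0
  have h1 := h.1 1
  have h2 := h.2 2
  have e0 : v 0 2 = -(v 0 0 + v 0 1) := by
    rw [eq_neg_iff_add_eq_zero, ← h0]
    abel
  have e1 : v 1 2 = -(v 1 0 + v 1 1) := by
    rw [eq_neg_iff_add_eq_zero, ← h1]
    abel
  have e2 : v 2 2 = -(v 0 2 + v 1 2) := by
    rw [eq_neg_iff_add_eq_zero, ← h2]
    abel
  rw [e2, e0, e1]
  abel

theorem Arr.gcEq2 {v : Fin 3 → Fin 3 → V} (h : Arr v) (j : Fin 3) :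
    v 2 j = -(v 0 j + v 1 j) := by
  rw [eq_neg_iff_add_eq_zero, ← h.2 j]
  abel

theorem Grid.gcLi {v : Fin 3 → Fin 3 → V} (hv : Grid H v) {a b c d : ℝ} (ha : 0 < a)
    (hb : 0 < b) (hc : 0 < c) (hd : 0 < d) :
    LinearIndependent ℝ ![a • v 0 0, b • v 0 1, c • v 1 0, d • v 1 1] := by
  have h := hv.li.units_smul ![Units.mk0 a ha.ne', Units.mk0 b hb.ne', Units.mk0 c hc.ne',
    Units.mk0 d hd.ne']
  have e : (![Units.mk0 a ha.ne', Units.mk0 b hb.ne', Units.mk0 c hc.ne',
    Units.mk0 d hd.ne'] : Fin 4 → ℝˣ) • ![v 0 0, v 0 1, v 1 0, v 1 1] =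
      ![a • v 0 0, b • v 0 1, c • v 1 0, d • v 1 1] := by
    ext i
    fin_cases i <;> rfl
  rwa [e] at h

/-- four independent elements cannot sum to `-x` -/
theorem Grid.gcNo4 (hG : Good H) {v : Fin 3 → Fin 3 → V} (hv : Grid H v) {x : V} (hx : x ∈ H)
    {a b c d : ℝ} (ha : 0 < a) (hb : 0 < b) (hc : 0 < c) (hd : 0 < d)
    (h : -x = a • v 0 0 + b • v 0 1 + c • v 1 0 + d • v 1 1) : False := by
  have h1 := hG.circ 4 ![a • v 0 0, b • v 0 1, c • v 1 0, d • v 1 1]
    (hv.gcLi ha hb hc hd) (fun i => by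
      fin_cases i
      · exact hG.pos _ (hv.mem _ _) a ha
      · exact hG.pos _ (hv.mem _ _) b hb
      · exact hG.pos _ (hv.mem _ _) c hc
      · exact hG.pos _ (hv.mem _ _) d hd) (by
      rw [Fin.sum_univ_four]
      show -(a • v 0 0 + b • v 0 1 + c • v 1 0 + d • v 1 1) ∈ H
      rw [← h, neg_neg]
      exact hx)
  omega

theorem gcSpan4 {v : Fin 3 → Fin 3 → V} {c : ℝ} :
    Submodule.span ℝ (Set.range ![c • v 0 0, c • v 0 1, c • v 1 0, c • v 1 1]) ≤ gcW v := by
  rw [Submodule.span_le]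
  rintro _ ⟨i, rfl⟩
  fin_cases i
  · exact (gcW v).smul_mem c (mem_gcW v 0 0)
  · exact (gcW v).smul_mem c (mem_gcW v 0 1)
  · exact (gcW v).smul_mem c (mem_gcW v 1 0)
  · exact (gcW v).smul_mem c (mem_gcW v 1 1)

theorem Grid.gcNo5 (hG : Good H) {v : Fin 3 → Fin 3 → V} (hv : Grid H v) {x s : V} (hx : x ∈ H)
    (hs : s ∈ H) (hsW : s ∉ gcW v) {i j : Fin 3} {c : ℝ} (hc : 0 < c)
    (h : -x = c • v i j + s) : False := by
  set v' : Fin 3 → Fin 3 → V := fun p q => v (Equiv.swap 2 i p) (Equiv.swap 2 j q) with hv'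
  have hg : Grid H v' := hv.gcPerm _ _
  have hW : gcW v' = gcW v := gcW_perm v _ _
  have h22 : v' 2 2 = v i j := by simp [hv']
  rw [← h22, hg.arr.gcEq22] at h
  have hli := li_cons (y := s) (hg.gcLi hc hc hc hc) (fun hcon => hsW (by
    rw [← hW]
    exact gcSpan4 hcon))
  have h1 := hG.circ 5 _ hli (fun k => by
      refine Fin.cases ?_ (fun k => ?_) k
      · rw [Fin.cons_zero]
        exact hs
      · rw [Fin.cons_succ]
        fin_cases k
        · exact hG.pos _ (hg.mem _ _) c hc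
        · exact hG.pos _ (hg.mem _ _) c hc
        · exact hG.pos _ (hg.mem _ _) c hc
        · exact hG.pos _ (hg.mem _ _) c hc) (by
      rw [Fin.sum_univ_succ, Fin.cons_zero]
      simp only [Fin.cons_succ]
      rw [Fin.sum_univ_four]
      show -(s + (c • v' 0 0 + c • v' 0 1 + c • v' 1 0 + c • v' 1 1)) ∈ H
      have e : -(s + (c • v' 0 0 + c • v' 0 1 + c • v' 1 0 + c • v' 1 1)) = x := by
        rw [← neg_neg x, h]
        module
      rw [e]
      exact hx)
  omega

/-- the rays of the entries -/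
def gcR (v : Fin 3 → Fin 3 → V) : Set V := {y | ∃ i j, y ∈ ray (v i j)}

theorem posClosed_gcR (v : Fin 3 → Fin 3 → V) : PosClosed (gcR v) := by
  rintro h ⟨i, j, hh⟩ t ht
  exact ⟨i, j, posClosed_ray _ h hh t ht⟩

theorem Grid.gcR_sub (hG : Good H) {v : Fin 3 → Fin 3 → V} (hv : Grid H v) : gcR v ⊆ H := by
  rintro _ ⟨i, j, t, ht, rfl⟩
  exact hG.pos _ (hv.mem i j) t ht

theorem gcR_sub_gcW (v : Fin 3 → Fin 3 → V) : gcR v ⊆ gcW v := by
  rintro _ ⟨i, j, t, ht, rfl⟩
  exact (gcW v).smul_mem t (mem_gcW v i j)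

/-- a set whose cone is closed under negation -/
theorem gcK_of_span {S : Set V} (h : ∀ s ∈ S, -s ∈ K S) {y : V}
    (hy : y ∈ Submodule.span ℝ S) : y ∈ K S := by
  have key : y ∈ K S ∧ -y ∈ K S := by
    induction hy using Submodule.span_induction with
    | mem x hx => exact ⟨K_mem hx, h x hx⟩
    | zero => exact ⟨K_zero S, by rw [neg_zero]; exact K_zero S⟩
    | add x y _ _ hx hy =>
      refine ⟨K_add hx.1 hy.1, ?_⟩
      rw [neg_add]
      exact K_add hx.2 hy.2
    | smul a x _ hx =>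
      rcases le_total 0 a with ha | ha
      · refine ⟨K_smul hx.1 ha, ?_⟩
        rw [← smul_neg]
        exact K_smul hx.2 ha
      · have ha' : 0 ≤ -a := by linarith
        refine ⟨?_, ?_⟩
        · have e : a • x = (-a) • (-x) := by module
          rw [e]
          exact K_smul hx.2 ha'
        · rw [← neg_smul]
          exact K_smul hx.1 ha'
  exact key.1

theorem Grid.K_gcR {v : Fin 3 → Fin 3 → V} (hv : Grid H v) {y : V} (hy : y ∈ gcW v) :
    y ∈ K (gcR v) := by
  apply gcK_of_span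
  · rintro _ ⟨i, j, t, ht, rfl⟩
    have h1 : -(v i j) ∈ K (gcR v) := by
      have hk : ∀ i j, v i j ∈ K (gcR v) := fun i j => K_mem ⟨i, j, self_mem_ray _⟩
      have h2 := hv.arr.1 i
      have e : ∀ a b c : V, a + b + c = 0 → -a = b + c ∧ -b = a + c ∧ -c = a + b := by
        intro a b c h
        refine ⟨?_, ?_, ?_⟩
        · rw [neg_eq_iff_add_eq_zero, ← h]
          abel
        · rw [neg_eq_iff_add_eq_zero, ← h]
          abel
        · rw [neg_eq_iff_add_eq_zero, ← h]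
          abel
      obtain ⟨e1, e2, e3⟩ := e _ _ _ h2
      fin_cases j
      · show -(v i 0) ∈ K (gcR v)
        rw [e1]
        exact K_add (hk _ _) (hk _ _)
      · show -(v i 1) ∈ K (gcR v)
        rw [e2]
        exact K_add (hk _ _) (hk _ _)
      · show -(v i 2) ∈ K (gcR v)
        rw [e3]
        exact K_add (hk _ _) (hk _ _)
    rw [← smul_neg]
    exact K_smul h1 ht.le
  · refine Submodule.span_mono ?_ hy
    rintro _ ⟨p, rfl⟩
    exact ⟨p.1, p.2, self_mem_ray _⟩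

theorem Grid.gcNo1 (hG : Good H) {v : Fin 3 → Fin 3 → V} (hv : Grid H v) {x : V} (hx : x ∈ H)
    {i j : Fin 3} {c : ℝ} (hc : 0 < c) (h : -x = c • v i j) : False := by
  set v' : Fin 3 → Fin 3 → V := fun p q => v (Equiv.swap 2 i p) (Equiv.swap 2 j q) with hv'
  have hg : Grid H v' := hv.gcPerm _ _
  have h22 : v' 2 2 = v i j := by simp [hv']
  rw [← h22, hg.arr.gcEq22] at h
  exact hg.gcNo4 hG hx hc hc hc hc (by rw [h]; module)

theorem Grid.gcNoDiag (hG : Good H) {v : Fin 3 → Fin 3 → V} (hv : Grid H v) {x : V} (hx : x ∈ H)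
    {i j k l : Fin 3} (hik : k ≠ i) (hjl : l ≠ j) {α β : ℝ} (hα : 0 < α) (hβ : 0 < β)
    (h : -x = α • v i j + β • v k l) : False := by
  set v' : Fin 3 → Fin 3 → V := fun p q => v (Equiv.swap 2 i p) (Equiv.swap 2 j q) with hv'
  have hg : Grid H v' := hv.gcPerm _ _
  have h22 : v' 2 2 = v i j := by simp [hv']
  obtain ⟨k', hk', hk2⟩ : ∃ k', Equiv.swap 2 i k' = k ∧ k' ≠ 2 :=
    ⟨Equiv.swap 2 i k, by simp, fun hcon => hik (by
      have := congrArg (Equiv.swap 2 i) hcon
      simpa using this)⟩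
  obtain ⟨l', hl', hl2⟩ : ∃ l', Equiv.swap 2 j l' = l ∧ l' ≠ 2 :=
    ⟨Equiv.swap 2 j l, by simp, fun hcon => hjl (by
      have := congrArg (Equiv.swap 2 j) hcon
      simpa using this)⟩
  have hkl : v' k' l' = v k l := by simp only [hv', hk', hl']
  rw [← h22, ← hkl, hg.arr.gcEq22] at h
  have hαβ : 0 < α + β := by linarith
  clear_value v'
  fin_cases k'
  · fin_cases l'
    · exact hg.gcNo4 hG hx hαβ hα hα hα (by rw [h]; show _ + β • v' 0 0 = _; module)
    · exact hg.gcNo4 hG hx hα hαβ hα hα (by rw [h]; show _ + β • v' 0 1 = _; module)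
    · exact hl2 rfl
  · fin_cases l'
    · exact hg.gcNo4 hG hx hα hα hαβ hα (by rw [h]; show _ + β • v' 1 0 = _; module)
    · exact hg.gcNo4 hG hx hα hα hα hαβ (by rw [h]; show _ + β • v' 1 1 = _; module)
    · exact hl2 rfl
  · exact hk2 rfl

theorem Grid.gcNoRow (hG : Good H) {v : Fin 3 → Fin 3 → V} (hv : Grid H v) {x : V} (hx : x ∈ H)
    {i j l : Fin 3} (hjl : l ≠ j) {α β : ℝ} (hβ : 0 < β) (hαβ : β < α)
    (h : -x = α • v i j + β • v i l) : False := by
  set v' : Fin 3 → Fin 3 → V := fun p q => v (Equiv.swap 2 i p) (Equiv.swap 2 j q) with hv'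
  have hg : Grid H v' := hv.gcPerm _ _
  have h22 : v' 2 2 = v i j := by simp [hv']
  obtain ⟨l', hl', hl2⟩ : ∃ l', Equiv.swap 2 j l' = l ∧ l' ≠ 2 :=
    ⟨Equiv.swap 2 j l, by simp, fun hcon => hjl (by
      have := congrArg (Equiv.swap 2 j) hcon
      simpa using this)⟩
  have hkl : v' 2 l' = v i l := by simp [hv', hl']
  rw [← h22, ← hkl, hg.arr.gcEq22, hg.arr.gcEq2] at h
  have hα : 0 < α := hβ.trans hαβ
  have hd : 0 < α - β := by linarith
  clear_value v'
  fin_cases l'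
  · exact hg.gcNo4 hG hx hd hα hd hα (by rw [h]; show _ + β • (-(v' 0 0 + v' 1 0)) = _; module)
  · exact hg.gcNo4 hG hx hα hd hα hd (by rw [h]; show _ + β • (-(v' 0 1 + v' 1 1)) = _; module)
  · exact hl2 rfl

theorem Grid.gcRow (hG : Good H) {v : Fin 3 → Fin 3 → V} (hv : Grid H v) {x : V} (hx : x ∈ H)
    {i j l : Fin 3} (hjl : l ≠ j) {α β : ℝ} (hα : 0 < α) (hβ : 0 < β)
    (h : -x = α • v i j + β • v i l) : ∃ m, x ∈ ray (v i m) := by
  rcases lt_trichotomy α β with hlt | heq | hlt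
  · exact (hv.gcNoRow hG hx hjl.symm hα hlt (by rw [h, add_comm])).elim
  · subst heq
    obtain ⟨m, hm⟩ : ∃ m, v i j + v i l + v i m = 0 := by
      have h1 := hv.arr.1 i
      fin_cases j
      · fin_cases l
        · exact (hjl rfl).elim
        · exact ⟨2, h1⟩
        · exact ⟨1, by rw [← h1]; show v i 0 + v i 2 + v i 1 = _; abel⟩
      · fin_cases l
        · exact ⟨2, by rw [← h1]; show v i 1 + v i 0 + v i 2 = _; abel⟩
        · exact (hjl rfl).elim
        · exact ⟨0, by rw [← h1]; show v i 1 + v i 2 + v i 0 = _; abel⟩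
      · fin_cases l
        · exact ⟨1, by rw [← h1]; show v i 2 + v i 0 + v i 1 = _; abel⟩
        · exact ⟨0, by rw [← h1]; show v i 2 + v i 1 + v i 0 = _; abel⟩
        · exact (hjl rfl).elim
    refine ⟨m, α, hα, ?_⟩
    have e : v i m = -(v i j + v i l) := by
      rw [eq_neg_iff_add_eq_zero, ← hm]
      abel
    rw [e, ← neg_neg x, h]
    module
  · exact (hv.gcNoRow hG hx hjl hβ hlt h).elim

theorem grid_mem (hG : Good H) {v : Fin 3 → Fin 3 → V} (hv : Grid H v) {x : V} (hx : x ∈ H)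
    (hxW : x ∈ Submodule.span ℝ (Set.range fun p : Fin 3 × Fin 3 => v p.1 p.2)) :
    ∃ i j, x ∈ ray (v i j) := by
  have hk : -x ∈ K (gcR v) := hv.K_gcR (neg_mem hxW)
  rcases hG.tool (posClosed_gcR v) (hv.gcR_sub hG) hx hk with ⟨i, j, c, hc, h⟩ |
    ⟨_, ⟨i, j, α, hα, rfl⟩, _, ⟨k, l, β, hβ, rfl⟩, hli, h⟩
  · exact (hv.gcNo1 hG hx hc h).elim
  · by_cases hik : k = i
    · subst hik
      by_cases hjl : l = j
      · subst hjl
        exfalso
        have h1 := (LinearIndependent.pair_iff.1 hli) β (-α) (by module)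
        exact hβ.ne' h1.1
      · obtain ⟨m, hm⟩ := hv.gcRow hG hx hjl hα hβ h
        exact ⟨k, m, hm⟩
    · by_cases hjl : l = j
      · subst hjl
        obtain ⟨m, hm⟩ := hv.gcTranspose.gcRow hG hx hik hα hβ h
        exact ⟨m, l, hm⟩
      · exact (hv.gcNoDiag hG hx hik hjl hα hβ h).elim

theorem grid_compl (hG : Good H) {v : Fin 3 → Fin 3 → V} (hv : Grid H v) :
    IsCompl (Submodule.span ℝ (Set.range fun p : Fin 3 × Fin 3 => v p.1 p.2))
      (Submodule.span ℝ {x | x ∈ H ∧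
        x ∉ Submodule.span ℝ (Set.range fun p : Fin 3 × Fin 3 => v p.1 p.2)}) := by
  change IsCompl (gcW v) (Submodule.span ℝ {x | x ∈ H ∧ x ∉ gcW v})
  set H' : Set V := {x | x ∈ H ∧ x ∉ gcW v} with hH'
  have hpos : PosClosed H' := by
    rintro h ⟨h1, h2⟩ t ht
    refine ⟨hG.pos _ h1 t ht, fun hcon => h2 ?_⟩
    have := (gcW v).smul_mem t⁻¹ hcon
    rwa [smul_smul, inv_mul_cancel₀ ht.ne', one_smul] at this
  have hmix : ∀ x ∈ H, ∀ s ∈ H, ∀ s' ∈ H, s ∈ gcW v → s' ∉ gcW v → -x = s + s' → False := by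
    intro x hx s hs s' hs' hsW hsW' h
    obtain ⟨i, j, c, hc, rfl⟩ := grid_mem hG hv hs hsW
    exact hv.gcNo5 hG hx hs' hsW' hc h
  have ha : ∀ h ∈ H', -h ∈ K H' := by
    rintro h ⟨h1, h2⟩
    rcases hG.tool hG.pos subset_rfl h1 (hG.span (-h)) with h3 | ⟨s, hs, s', hs', -, h3⟩
    · exact K_mem ⟨h3, fun hcon => h2 (by
        have := neg_mem hcon
        rwa [neg_neg] at this)⟩
    · by_cases hsW : s ∈ gcW v
      · by_cases hsW' : s' ∈ gcW v
        · exfalso
          apply h2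
          have := neg_mem (add_mem hsW hsW')
          rwa [← h3, neg_neg] at this
        · exact (hmix h h1 s hs s' hs' hsW hsW' h3).elim
      · by_cases hsW' : s' ∈ gcW v
        · exact (hmix h h1 s' hs' s hs hsW' hsW (by rw [h3, add_comm])).elim
        · rw [h3]
          exact K_add (K_mem ⟨hs, hsW⟩) (K_mem ⟨hs', hsW'⟩)
  constructor
  · rw [Submodule.disjoint_def]
    intro w hw hw'
    by_contra hw0
    obtain ⟨m, s, hli, hs, hsum⟩ := carath hpos (gcK_of_span ha hw')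
    rcases m with _ | m
    · rw [Fin.sum_univ_zero] at hsum
      exact hw0 hsum
    · rw [Fin.sum_univ_succ] at hsum
      have hne : s 0 ∉ Submodule.span ℝ (Set.range fun i : Fin m => s i.succ) :=
        (linearIndependent_finSucc.1 hli).2
      set S : Set V := gcR v ∪ {y | ∃ i : Fin m, y ∈ ray (s i.succ)} with hS
      have hSpos : PosClosed S := by
        refine (posClosed_gcR v).union ?_
        rintro h ⟨i, hh⟩ t ht
        exact ⟨i, posClosed_ray _ h hh t ht⟩
      have hSH : S ⊆ H := by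
        rintro y (hy | ⟨i, t, ht, rfl⟩)
        · exact hv.gcR_sub hG hy
        · exact hG.pos _ (hs _).1 t ht
      have hk : -(s 0) ∈ K S := by
        have e : -(s 0) = (∑ i : Fin m, s i.succ) + -w := by
          rw [hsum]
          abel
        rw [e]
        refine K_add (sum_mem fun i _ => K_mem (Or.inr ⟨i, self_mem_ray _⟩)) ?_
        exact K_mono Set.subset_union_left (hv.K_gcR (neg_mem hw))
      have hspan : ∀ y, (∃ i : Fin m, y ∈ ray (s i.succ)) →
          y ∈ Submodule.span ℝ (Set.range fun i : Fin m => s i.succ) := by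
        rintro _ ⟨i, t, ht, rfl⟩
        exact Submodule.smul_mem _ t (Submodule.subset_span ⟨i, rfl⟩)
      have hW' : ∀ y, (∃ i : Fin m, y ∈ ray (s i.succ)) → y ∉ gcW v := by
        rintro _ ⟨i, t, ht, rfl⟩
        exact (hpos _ (hs i.succ) t ht).2
      have hneg : ∀ P : Submodule ℝ V, -(s 0) ∈ P → s 0 ∈ P := by
        intro P hP
        have := neg_mem hP
        rwa [neg_neg] at this
      rcases hG.tool hSpos hSH (hs 0).1 hk with (h1 | h1) | ⟨y, hy, y', hy', -, h1⟩
      · exact (hs 0).2 (hneg _ (gcR_sub_gcW v h1))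
      · exact hne (hneg _ (hspan _ h1))
      · rcases hy with hy | hy
        · rcases hy' with hy' | hy'
          · exact (hs 0).2 (hneg _ (by
              rw [h1]
              exact add_mem (gcR_sub_gcW v hy) (gcR_sub_gcW v hy')))
          · exact hmix _ (hs 0).1 y (hSH (Or.inl hy)) y' (hSH (Or.inr hy')) (gcR_sub_gcW v hy)
              (hW' _ hy') h1
        · rcases hy' with hy' | hy'
          · exact hmix _ (hs 0).1 y' (hSH (Or.inl hy')) y (hSH (Or.inr hy)) (gcR_sub_gcW v hy')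
              (hW' _ hy) (by rw [h1, add_comm])
          · exact hne (hneg _ (by
              rw [h1]
              exact add_mem (hspan _ hy) (hspan _ hy')))
  · rw [codisjoint_iff, eq_top_iff]
    intro x _
    refine K_sub ?_ (hG.span x)
    intro h hh
    by_cases hW : h ∈ gcW v
    · exact Submodule.mem_sup_left hW
    · exact Submodule.mem_sup_right (Submodule.subset_span ⟨hh, hW⟩)

end Pool.Agent.Helper75.SZ
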